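import Mathlib
import Pool.Agent.TH72.CF.Defs

set_option autoImplicit false

/-!
# CF-DEG: minimal degree of a doubly transitive group not containing the alternating group
(job 548 for helper72, MP_acf1dc_al)
-/

namespace Pool.Agent.TH772.CF

open Equiv Pool.Agent.TH72.CF

theorem comm_fix {Δ : Type} (g g' : Perm Δ) (z : Δ) (h0 : g z = z ∨ g' z = z)
    (h1 : g (g⁻¹ z) = g⁻¹ z ∨ g' (g⁻¹ z) = g⁻¹ z)
    (h2 : g (g'⁻¹ z) = g'⁻¹ z ∨ g' (g'⁻¹ z) = g'⁻¹ z) :
    (g * g' * g⁻¹ * g'⁻¹) z = z := by
  have ginv : ∀ w, g w = w → g⁻¹ w = w := fun w hw => by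
    rw [Perm.inv_eq_iff_eq]; exact hw.symm
  have ginv' : ∀ w, g' w = w → g'⁻¹ w = w := fun w hw => by
    rw [Perm.inv_eq_iff_eq]; exact hw.symm
  have gg : g (g⁻¹ z) = z := by simp
  have gg' : g' (g'⁻¹ z) = z := by simp
  simp only [Perm.mul_apply]
  rcases h0 with h | h
  · rcases h2 with h2 | h2
    · rw [ginv _ h2, gg', h]
    · have hz : g'⁻¹ z = z := by rw [← h2, gg']
      have hz' : g' z = z := by
        have := gg'
        rw [hz] at this
        exact this
      rw [hz, ginv _ h, hz', h]
  · rw [ginv' _ h]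
    rcases h1 with h1 | h1
    · have hz : g⁻¹ z = z := by rw [← h1, gg]
      have hz' : g z = z := by
        have := gg
        rw [hz] at this
        exact this
      rw [hz, h, hz']
    · rw [h1, gg]

/-- the heart: a group element of small support in a doubly transitive group -/
theorem bochert {Δ : Type} [Fintype Δ] [DecidableEq Δ] (H : Subgroup (Perm Δ))
    (h2 : TwoTrans H) (g : Perm Δ) (hg : g ∈ H) (hg1 : g ≠ 1)
    (hmin : ∀ c ∈ H, c ≠ 1 → g.support.card ≤ c.support.card) :
    g.support.card * (Fintype.card Δ - g.support.card) ≤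
      3 * ((Fintype.card Δ - 1) + (g.support.card - 1) * (g.support.card - 1)) := by
  classical
  set Γ := g.support with hΓ
  set s := Γ.card with hs
  set n := Fintype.card Δ with hn
  obtain ⟨α, hα⟩ : ∃ α, α ∈ Γ := by
    have : Γ.Nonempty := by
      rw [Finset.nonempty_iff_ne_empty, hΓ, Ne, Perm.support_eq_empty_iff]
      exact hg1
    exact this
  set β := g α with hβ
  have hβα : β ≠ α := Perm.mem_support.mp hα
  -- the point stabilizer
  let HA : Finset (Perm Δ) := Finset.univ.filter (fun x => x ∈ H ∧ x α = α)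
  have hHA : ∀ x, x ∈ HA ↔ x ∈ H ∧ x α = α := by intro x; simp [HA]
  let N : Δ → Δ → ℕ := fun γ δ => (HA.filter (fun x => x γ = δ)).card
  have hNle : ∀ γ δ δ' : Δ, δ ≠ α → δ' ≠ α → N γ δ ≤ N γ δ' := by
    intro γ δ δ' hδ hδ'
    obtain ⟨h, hhH, hhα, hhδ⟩ := h2 α δ α δ' hδ.symm hδ'.symm
    apply Finset.card_le_card_of_injOn (fun x => h * x)
    · intro x hx
      simp only [Finset.coe_filter, Set.mem_ofPred_eq, hHA] at hx ⊢
      obtain ⟨⟨hx1, hx2⟩, hx3⟩ := hx
      refine ⟨⟨H.mul_mem hhH hx1, ?_⟩, ?_⟩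
      · rw [Perm.mul_apply, hx2, hhα]
      · rw [Perm.mul_apply, hx3, hhδ]
    · intro x _ y _ hxy
      exact mul_left_cancel hxy
  have hNeq : ∀ γ δ : Δ, γ ≠ α → δ ≠ α → N γ δ = N β β := by
    intro γ δ hγ hδ
    have e1 : ∀ γ δ δ' : Δ, δ ≠ α → δ' ≠ α → N γ δ = N γ δ' := fun γ δ δ' h h' =>
      le_antisymm (hNle γ δ δ' h h') (hNle γ δ' δ h' h)
    -- total count
    have tot : ∀ γ : Δ, γ ≠ α → HA.card = (n - 1) * N γ β := by
      intro γ hγ
      have h1 : HA.card = ∑ δ ∈ Finset.univ.erase α, N γ δ := by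
        apply Finset.card_eq_sum_card_fiberwise
        intro x hx
        have hx' := (hHA x).mp hx
        simp only [Finset.coe_erase, Finset.coe_univ, Set.mem_sdiff, Set.mem_univ,
          Set.mem_singleton_iff, true_and]
        intro h
        apply hγ
        apply x.injective
        rw [h, hx'.2]
      rw [h1, Finset.sum_congr rfl (fun δ hδ => e1 γ δ β (Finset.ne_of_mem_erase hδ) hβα)]
      rw [Finset.sum_const, Finset.card_erase_of_mem (Finset.mem_univ _), Finset.card_univ,
        smul_eq_mul]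
    have hn1 : 0 < n - 1 := by
      have : 1 < n := Fintype.one_lt_card_iff.mpr ⟨β, α, hβα⟩
      omega
    have h3 := tot γ hγ
    have h4 := tot β hβα
    rw [h3] at h4
    have h5 := Nat.eq_of_mul_eq_mul_left hn1 h4
    rw [e1 γ δ β hδ hβα, h5]
  set M := N β β with hM
  have hMpos : 0 < M := by
    rw [hM]
    apply Finset.card_pos.mpr
    refine ⟨1, ?_⟩
    simp only [Finset.mem_filter, hHA]
    exact ⟨⟨H.one_mem, rfl⟩, rfl⟩
  have hHAcard : HA.card = (n - 1) * M := by
    have h1 : HA.card = ∑ δ ∈ Finset.univ.erase α, N β δ := by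
      apply Finset.card_eq_sum_card_fiberwise
      intro x hx
      have hx' := (hHA x).mp hx
      simp only [Finset.coe_erase, Finset.coe_univ, Set.mem_sdiff, Set.mem_univ,
        Set.mem_singleton_iff, true_and]
      intro h
      apply hβα
      apply x.injective
      rw [h, hx'.2]
    rw [h1, Finset.sum_congr rfl (fun δ hδ => hNeq β δ hβα (Finset.ne_of_mem_erase hδ))]
    rw [Finset.sum_const, Finset.card_erase_of_mem (Finset.mem_univ _), Finset.card_univ,
      smul_eq_mul]
  -- the good elements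
  let X : Finset (Perm Δ) := HA.filter (fun x => x β ∉ Γ)
  have hXcard : X.card = (n - s) * M := by
    have h1 : X.card = ∑ δ ∈ Γᶜ, (X.filter (fun x => x β = δ)).card := by
      apply Finset.card_eq_sum_card_fiberwise
      intro x hx
      have hx' := (Finset.mem_filter.mp hx).2
      simpa using hx'
    have h2 : ∀ δ ∈ Γᶜ, (X.filter (fun x => x β = δ)).card = M := by
      intro δ hδ
      have hδ' : δ ∉ Γ := by simpa using hδ
      have hδα : δ ≠ α := by
        rintro rfl
        exact hδ' hα
      rw [← hNeq β δ hβα hδα]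
      show _ = (HA.filter (fun x => x β = δ)).card
      congr 1
      ext x
      simp only [X, Finset.mem_filter]
      constructor
      · rintro ⟨⟨h1, h2⟩, h3⟩
        exact ⟨h1, h3⟩
      · rintro ⟨h1, h3⟩
        exact ⟨⟨h1, by rw [h3]; exact hδ'⟩, h3⟩
    rw [h1, Finset.sum_congr rfl h2, Finset.sum_const, Finset.card_compl, smul_eq_mul]
  let B : Perm Δ → Finset Δ := fun x => Γ.filter (fun γ => x γ ∈ Γ)
  have hkey : ∀ x ∈ X, s ≤ 3 * (B x).card := by
    intro x hx
    obtain ⟨hxA, hxβ⟩ := Finset.mem_filter.mp hx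
    obtain ⟨hxH, hxα⟩ := (hHA x).mp hxA
    set g' : Perm Δ := x * g * x⁻¹ with hg'
    set c : Perm Δ := g * g' * g⁻¹ * g'⁻¹ with hc
    have hg'H : g' ∈ H := H.mul_mem (H.mul_mem hxH hg) (H.inv_mem hxH)
    have hcH : c ∈ H := H.mul_mem (H.mul_mem (H.mul_mem hg hg'H) (H.inv_mem hg)) (H.inv_mem hg'H)
    have hxα' : x⁻¹ α = α := by rw [Perm.inv_eq_iff_eq]; exact hxα.symm
    have hg'α : g' α = x β := by
      rw [hg', Perm.mul_apply, Perm.mul_apply, hxα']
    have hgx : g (x β) = x β := by
      rw [hΓ] at hxβ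
      exact Perm.notMem_support.mp hxβ
    have hcne : c ≠ 1 := by
      intro h
      have h1 : g * g' = g' * g := by
        have : g * g' * g⁻¹ * g'⁻¹ * (g' * g) = g' * g := by rw [← hc, h, one_mul]
        rw [← this]
        group
      have h2 : g (g' α) = g' (g α) := by
        rw [← Perm.mul_apply, ← Perm.mul_apply, h1]
      rw [hg'α, hgx, ← hg'α] at h2
      exact hβα (g'.injective h2).symm
    -- the support
    let A : Finset Δ := (B x).image x
    have hA : ∀ z, z ∉ A → g z = z ∨ g' z = z := by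
      intro z hz
      by_contra hcon
      push Not at hcon
      apply hz
      apply Finset.mem_image.mpr
      refine ⟨x⁻¹ z, ?_, by simp⟩
      simp only [B, Finset.mem_filter]
      refine ⟨?_, ?_⟩
      · rw [hΓ, Perm.mem_support]
        intro h
        apply hcon.2
        rw [hg', Perm.mul_apply, Perm.mul_apply, h]
        simp
      · rw [hΓ, Perm.mem_support]
        simpa using hcon.1
    have hsub : c.support ⊆ A ∪ A.image g ∪ A.image g' := by
      intro z hz
      by_contra hcon
      simp only [Finset.mem_union, not_or] at hcon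
      obtain ⟨⟨h0, h1⟩, h2⟩ := hcon
      have h1' : g⁻¹ z ∉ A := by
        intro h
        exact h1 (Finset.mem_image.mpr ⟨g⁻¹ z, h, by simp⟩)
      have h2' : g'⁻¹ z ∉ A := by
        intro h
        exact h2 (Finset.mem_image.mpr ⟨g'⁻¹ z, h, by simp⟩)
      exact Perm.mem_support.mp hz (comm_fix g g' z (hA _ h0) (hA _ h1') (hA _ h2'))
    have hAc : A.card ≤ (B x).card := Finset.card_image_le
    have h3 : c.support.card ≤ A.card + A.card + A.card := by
      refine (Finset.card_le_card hsub).trans ?_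
      refine (Finset.card_union_le _ _).trans ?_
      refine add_le_add ((Finset.card_union_le _ _).trans (add_le_add le_rfl ?_)) ?_
      · exact Finset.card_image_le
      · exact Finset.card_image_le
    have h4 := hmin c hcH hcne
    omega
  -- the sum
  have hsum : ∑ x ∈ HA, (B x).card = (n - 1) * M + (s - 1) * ((s - 1) * M) := by
    have h1 : ∑ x ∈ HA, (B x).card = ∑ γ ∈ Γ, (HA.filter (fun x => x γ ∈ Γ)).card := by
      simp only [B, Finset.card_filter]
      rw [Finset.sum_comm]
    rw [h1, ← Finset.add_sum_erase Γ _ hα]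
    congr 1
    · rw [← hHAcard]
      congr 1
      apply Finset.filter_true_of_mem
      intro x hx
      rw [((hHA x).mp hx).2]
      exact hα
    · have h2 : ∀ γ ∈ Γ.erase α, (HA.filter (fun x => x γ ∈ Γ)).card = (s - 1) * M := by
        intro γ hγ
        have hγα : γ ≠ α := Finset.ne_of_mem_erase hγ
        have h3 : (HA.filter (fun x => x γ ∈ Γ)).card =
            ∑ δ ∈ Γ.erase α, ((HA.filter (fun x => x γ ∈ Γ)).filter (fun x => x γ = δ)).card := by
          apply Finset.card_eq_sum_card_fiberwise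
          intro x hx
          obtain ⟨hx1, hx2⟩ := Finset.mem_filter.mp hx
          have hx' := (hHA x).mp hx1
          rw [Finset.mem_coe, Finset.mem_erase]
          refine ⟨?_, hx2⟩
          intro h
          apply hγα
          apply x.injective
          rw [hx'.2]
          exact h
        have h4 : ∀ δ ∈ Γ.erase α,
            ((HA.filter (fun x => x γ ∈ Γ)).filter (fun x => x γ = δ)).card = M := by
          intro δ hδ
          rw [← hNeq γ δ hγα (Finset.ne_of_mem_erase hδ)]
          show _ = (HA.filter (fun x => x γ = δ)).card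
          congr 1
          ext x
          simp only [Finset.mem_filter]
          constructor
          · rintro ⟨⟨h1, h2⟩, h3⟩
            exact ⟨h1, h3⟩
          · rintro ⟨h1, h3⟩
            exact ⟨⟨h1, by rw [h3]; exact Finset.mem_of_mem_erase hδ⟩, h3⟩
        rw [h3, Finset.sum_congr rfl h4, Finset.sum_const, Finset.card_erase_of_mem hα,
          smul_eq_mul]
      rw [Finset.sum_congr rfl h2, Finset.sum_const, Finset.card_erase_of_mem hα, smul_eq_mul]
  have hfin : s * ((n - s) * M) ≤ 3 * ((n - 1) * M + (s - 1) * ((s - 1) * M)) := by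
    rw [← hXcard, ← hsum]
    calc s * X.card = ∑ _x ∈ X, s := by rw [Finset.sum_const, smul_eq_mul, mul_comm]
      _ ≤ ∑ x ∈ X, 3 * (B x).card := Finset.sum_le_sum hkey
      _ ≤ ∑ x ∈ HA, 3 * (B x).card :=
        Finset.sum_le_sum_of_subset (Finset.filter_subset _ _)
      _ = 3 * ∑ x ∈ HA, (B x).card := by rw [Finset.mul_sum]
  have hfin' : (s * (n - s)) * M ≤ (3 * ((n - 1) + (s - 1) * (s - 1))) * M := by
    calc (s * (n - s)) * M = s * ((n - s) * M) := by ring
      _ ≤ _ := hfin
      _ = _ := by ring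
  exact Nat.le_of_mul_le_mul_right hfin' hMpos

theorem min_degree {Δ : Type} [Fintype Δ] [DecidableEq Δ] (H : Subgroup (Perm Δ))
    (h2 : TwoTrans H) (hn : 17 ≤ Fintype.card Δ) (hA : ¬ alternatingGroup Δ ≤ H)
    (g : Perm Δ) (hg : g ∈ H) (hg1 : g ≠ 1) :
    Fintype.card Δ ≤ 12 * g.support.card := by
  classical
  by_contra hcon
  push Not at hcon
  -- a minimal element
  let S : Finset (Perm Δ) := Finset.univ.filter (fun x => x ∈ H ∧ x ≠ 1)
  have hS : S.Nonempty := ⟨g, by simp [S, hg, hg1]⟩
  obtain ⟨g0, hg0, hmin⟩ := Finset.exists_min_image S (fun x => x.support.card) hS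
  have hg0' : g0 ∈ H ∧ g0 ≠ 1 := by simpa [S] using hg0
  have hle : g0.support.card ≤ g.support.card := hmin g (by simp [S, hg, hg1])
  have hb := bochert H h2 g0 hg0'.1 hg0'.2 (fun c hc hc1 => hmin c (by simp [S, hc, hc1]))
  have hprim : MulAction.IsPreprimitive H Δ := by
    apply MulAction.isPreprimitive_of_is_two_pretransitive
    rw [MulAction.is_two_pretransitive_iff]
    intro a b c d hab hcd
    obtain ⟨h, hh, h1, h2⟩ := h2 a b c d hab hcd
    exact ⟨⟨h, hh⟩, h1, h2⟩
  have h1s : 1 < g0.support.card := Perm.one_lt_card_support_of_ne_one hg0'.2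
  have hs4 : 4 ≤ g0.support.card := by
    by_contra hlt
    have : g0.support.card = 2 ∨ g0.support.card = 3 := by omega
    rcases this with h | h
    · rw [Perm.card_support_eq_two] at h
      have := Perm.subgroup_eq_top_of_isPreprimitive_of_isSwap_mem hprim g0 h hg0'.1
      exact hA (this ▸ le_top)
    · rw [card_support_eq_three_iff] at h
      exact hA (Perm.alternatingGroup_le_of_isPreprimitive_of_isThreeCycle_mem hprim h hg0'.1)
  set s := g0.support.card with hs
  set n := Fintype.card Δ with hn'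
  have h12 : 12 * s < n := by omega
  obtain ⟨m, hm⟩ : ∃ m, n = m + s := ⟨n - s, by omega⟩
  obtain ⟨t, ht⟩ : ∃ t, s = t + 4 := ⟨s - 4, by omega⟩
  rw [hm, ht] at hb h12
  have e1 : m + (t + 4) - (t + 4) = m := by omega
  have e2 : m + (t + 4) - 1 = m + t + 3 := by omega
  have e3 : t + 4 - 1 = t + 3 := by omega
  rw [e1, e2, e3] at hb
  nlinarith

end Pool.Agent.TH772.CF
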