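import Mathlib
import Pool.Agent.TH72.CF.Defs

set_option autoImplicit false

/-!
# CF-GIANT: giant orbits of all pointwise stabilizers force every permutation pattern
(job 546 for helper72, MP_acf1dc_al)
-/

namespace Pool.Agent.TH772.CF

open Equiv Pool.Agent.TH72.CF

/-- the orbit of a tuple -/
def tOrb {Δ : Type} (H : Subgroup (Perm Δ)) {j : ℕ} (v : Fin j → Δ) : Set (Fin j → Δ) :=
  {u | ∃ h ∈ H, ∀ i, h (v i) = u i}

theorem tOrb_step {Δ : Type} [Fintype Δ] (H : Subgroup (Perm Δ)) {j : ℕ} (v : Fin j → Δ) (x : Δ) :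
    (tOrb H v).ncard * (orb H v x).ncard ≤ (tOrb H (Fin.snoc v x : Fin (j + 1) → Δ)).ncard := by
  classical
  choose! hu hmem hval using (fun (u : Fin j → Δ) (h : u ∈ tOrb H v) => h)
  let f : (Fin j → Δ) × Δ → (Fin (j + 1) → Δ) := fun p => Fin.snoc p.1 (hu p.1 p.2)
  have hinj : Set.InjOn f (tOrb H v ×ˢ orb H v x) := by
    rintro ⟨u, y⟩ _ ⟨u', y'⟩ _ h
    have h1 : u = u' := by
      have := congrArg (fun w : Fin (j + 1) → Δ => Fin.init (α := fun _ => Δ) w) h
      simpa [f] using this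
    subst h1
    have h2 : hu u y = hu u y' := by
      have := congrFun h (Fin.last j)
      simpa [f] using this
    rw [(hu u).injective h2]
  have hsub : f '' (tOrb H v ×ˢ orb H v x) ⊆ tOrb H (Fin.snoc v x : Fin (j + 1) → Δ) := by
    rintro _ ⟨⟨u, y⟩, ⟨h1, h2⟩, rfl⟩
    obtain ⟨g, hg, hfix, hgx⟩ := h2
    refine ⟨hu u * g, H.mul_mem (hmem u h1) hg, fun i => ?_⟩
    refine Fin.lastCases ?_ (fun i => ?_) i
    · simp only [f, Fin.snoc_last, Perm.mul_apply]
      simp only at hgx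
      rw [hgx]
    · simp only [f, Fin.snoc_castSucc, Perm.mul_apply]
      rw [hfix i]
      exact hval u h1 i
  calc (tOrb H v).ncard * (orb H v x).ncard = (tOrb H v ×ˢ orb H v x).ncard := by
        rw [Set.ncard_prod]
    _ = (f '' (tOrb H v ×ˢ orb H v x)).ncard := hinj.ncard_image.symm
    _ ≤ _ := Set.ncard_le_ncard hsub (Set.toFinite _)

theorem giants {Δ : Type} [Fintype Δ] [DecidableEq Δ] (H : Subgroup (Perm Δ)) (k : ℕ) (hk : 0 < k)
    (hΔ : 4 ≤ Fintype.card Δ)
    (hlarge : ∀ j : ℕ, j < k → ∀ Z : Fin j → Δ, ∃ x : Δ,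
      (1 - 1 / (4 * (k : ℝ))) * (Fintype.card Δ : ℝ) < ((orb H Z x).ncard : ℝ)) :
    ∀ σ : Perm (Fin k), ∃ v : Fin k → Δ, Function.Injective v ∧ ∃ h ∈ H, ∀ i, h (v i) = v (σ i) := by
  classical
  set n : ℕ := Fintype.card Δ with hn
  set c : ℝ := (1 - 1 / (4 * (k : ℝ))) * (n : ℝ) with hc
  have hkR : (1 : ℝ) ≤ k := by exact_mod_cast hk
  have hnR : (4 : ℝ) ≤ n := by exact_mod_cast hΔ
  have hfrac : 1 / (4 * (k : ℝ)) ≤ 1 / 4 := by
    apply one_div_le_one_div_of_le <;> linarith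
  have hfrac0 : 0 < 1 / (4 * (k : ℝ)) := by positivity
  have hc1 : 1 < c := by
    have : (3 / 4 : ℝ) ≤ 1 - 1 / (4 * (k : ℝ)) := by linarith
    calc (1 : ℝ) < (3 / 4) * 4 := by norm_num
      _ ≤ c := by
        rw [hc]
        apply mul_le_mul this hnR (by norm_num)
        linarith
  -- the recursion
  have hrec : ∀ j : ℕ, j ≤ k → ∃ v : Fin j → Δ, Function.Injective v ∧
      c ^ j ≤ ((tOrb H v).ncard : ℝ) := by
    intro j
    induction j with
    | zero =>
      intro _
      refine ⟨Fin.elim0, Function.injective_of_subsingleton _, ?_⟩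
      rw [pow_zero]
      have : 0 < (tOrb H (Fin.elim0 : Fin 0 → Δ)).ncard := by
        rw [Set.ncard_pos (Set.toFinite _)]
        exact ⟨Fin.elim0, 1, H.one_mem, fun i => i.elim0⟩
      exact_mod_cast this
    | succ j ih =>
      intro hj
      obtain ⟨v, hv, hvc⟩ := ih (by omega)
      obtain ⟨x, hx⟩ := hlarge j (by omega) v
      refine ⟨Fin.snoc v x, ?_, ?_⟩
      · rw [Fin.snoc_injective_iff]
        refine ⟨hv, ?_⟩
        rintro ⟨i, hi⟩
        have hsub : orb H v x ⊆ {x} := by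
          rintro y ⟨g, _, hfix, hgx⟩
          rw [← hgx, ← hi, hfix i]
          rfl
        have h1 : (orb H v x).ncard ≤ 1 := by
          have := Set.ncard_le_ncard hsub (Set.finite_singleton x)
          simpa using this
        have h2 : ((orb H v x).ncard : ℝ) ≤ 1 := by exact_mod_cast h1
        linarith
      · have h1 := tOrb_step H v x
        have h2 : ((tOrb H v).ncard : ℝ) * ((orb H v x).ncard : ℝ) ≤
            ((tOrb H (Fin.snoc v x : Fin (j + 1) → Δ)).ncard : ℝ) := by exact_mod_cast h1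
        refine le_trans ?_ h2
        rw [pow_succ]
        apply mul_le_mul hvc hx.le (by linarith) (by positivity)
  obtain ⟨v, hv, hvc⟩ := hrec k le_rfl
  intro σ
  set T : Set (Fin k → Δ) := tOrb H v with hT
  let φ : (Fin k → Δ) → (Fin k → Δ) := fun u => u ∘ σ
  have hφ : Function.Injective φ := by
    intro u u' h
    funext i
    have := congrFun h (σ.symm i)
    simpa [φ] using this
  have hT' : (φ '' T).ncard = T.ncard := Set.ncard_image_of_injective T hφ
  have hbern : (3 / 4 : ℝ) ≤ (1 - 1 / (4 * (k : ℝ))) ^ k := by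
    have h := one_add_mul_le_pow (a := -(1 / (4 * (k : ℝ)))) (by linarith) k
    have h2 : 1 + (k : ℝ) * -(1 / (4 * (k : ℝ))) = 3 / 4 := by
      field_simp
      norm_num
    rw [h2] at h
    calc (3 / 4 : ℝ) ≤ (1 + -(1 / (4 * (k : ℝ)))) ^ k := h
      _ = _ := by rw [← sub_eq_add_neg]
  have hTbig : (3 / 4 : ℝ) * (n : ℝ) ^ k ≤ (T.ncard : ℝ) := by
    refine le_trans ?_ hvc
    rw [hc, mul_pow]
    exact mul_le_mul_of_nonneg_right hbern (by positivity)
  have hmeet : (T ∩ φ '' T).Nonempty := by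
    by_contra hne
    rw [Set.not_nonempty_iff_eq_empty, ← Set.disjoint_iff_inter_eq_empty] at hne
    have h1 := Set.ncard_union_eq hne (Set.toFinite _) (Set.toFinite _)
    have h2 : (T ∪ φ '' T).ncard ≤ n ^ k := by
      have := Set.ncard_le_ncard (Set.subset_univ (T ∪ φ '' T)) (Set.toFinite _)
      rw [Set.ncard_univ, Nat.card_eq_fintype_card, Fintype.card_fun, Fintype.card_fin] at this
      exact this
    rw [h1, hT'] at h2
    have h3 : (T.ncard : ℝ) + (T.ncard : ℝ) ≤ (n : ℝ) ^ k := by exact_mod_cast h2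
    have h4 : 0 < (n : ℝ) ^ k := by positivity
    linarith
  obtain ⟨u', ⟨h', hh', hv'⟩, u, ⟨h, hh, hvu⟩, huu'⟩ := hmeet
  refine ⟨u, ?_, h' * h⁻¹, H.mul_mem hh' (H.inv_mem hh), fun i => ?_⟩
  · intro i i' hii
    apply hv
    apply h.injective
    rw [hvu i, hvu i', hii]
  · have e1 : u (σ i) = u' i := congrFun huu' i
    rw [Perm.mul_apply, e1, ← hv' i, ← hvu i]
    simp

end Pool.Agent.TH772.CF
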